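import Pool.Agent.CTZ.VFormula

/-!
# MP_9c739d_al: the exact dimension of the preimages of the non-conical limit points

For all data of the question the Hausdorff dimension of the set of preimages of the non-conical
limit points is the largest growth exponent of a point stabiliser divided by `log a`, and it is
attained in a single fibre. In particular it is positive if and only if some point of `Z` has a
stabiliser that is not virtually cyclic, and it is zero if there are no accidental parabolics.
-/

set_option autoImplicit false

open Filter Topology Set Pool.Agent.Helper68.CT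

namespace Pool.Agent.Results.MP_9c739d_al.DimensionFormula

/-- The growth exponent (critical exponent) of the stabiliser of `z` for the action on `X`: the
upper limit of `log #{s : s z = z, d(o, s o) ≤ n} / n`. -/
noncomputable def stabExponent (H : Type) {X Z : Type} [Group H] [MetricSpace X] [MulAction H X]
    [MulAction H Z] (o : X) (z : Z) : ENNReal :=
  limsup (fun n : ℕ => ENNReal.ofReal
    (Real.log ({s : H | s • z = z ∧ dist o (s • o) ≤ n}.ncard) / n)) atTop

theorem result {H X Z : Type} [Group H] [MetricSpace X] [MulAction H X] [TopologicalSpace Z]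
    [MulAction H Z] [ProperSpace X] [CompactSpace Z] [TopologicalSpace.MetrizableSpace Z]
    (i : Boundary X → Z) (hH : NotVirtuallyCyclic H) (hX : GeodesicSpace X)
    (hhyp : GromovHyperbolic X) (hgeo : GeometricAction H X) (hconv : ConvergenceAction H Z)
    (h3 : 3 ≤ (limitSet H Z).encard) (hi : Equivariant H i) (o : X) (a : ℝ) (ha : 1 < a)
    (d : MetricSpace (Boundary X)) (hd : IsVisual a o d) (hc : ContinuousWith d i) :
    -- the dimension formula
    dimWith d (i ⁻¹' nonConical H Z) =
      (⨆ z : Z, stabExponent H o z) / ENNReal.ofReal (Real.log a) ∧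
    -- the supremum is attained, and the whole dimension sits in one fibre
    (∃ z : Z,
      dimWith d (i ⁻¹' nonConical H Z) = stabExponent H o z / ENNReal.ofReal (Real.log a) ∧
      dimWith d (i ⁻¹' nonConical H Z) = dimWith d (i ⁻¹' nonConical H Z ∩ i ⁻¹' {z})) ∧
    -- the lower bound for every fibre
    (∀ z : Z, stabExponent H o z / ENNReal.ofReal (Real.log a) ≤
      dimWith d (i ⁻¹' nonConical H Z ∩ i ⁻¹' {z})) ∧
    -- the points with large stabilisers are not conical
    (∀ z : Z, NotVirtuallyCyclic (MulAction.stabilizer H z) → z ∈ nonConical H Z) ∧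
    -- the criterion
    (0 < dimWith d (i ⁻¹' nonConical H Z) ↔
      ∃ z : Z, NotVirtuallyCyclic (MulAction.stabilizer H z)) ∧
    -- no accidental parabolics
    ((∀ g : H, ¬ IsOfFinOrder g → ∃ y z : Z, y ≠ z ∧ g • y = y ∧ g • z = z) →
      dimWith d (i ⁻¹' nonConical H Z) = 0) :=
  Pool.Agent.CTZ.formula i hH hX hhyp hgeo hconv h3 hi o a ha d hd hc

end Pool.Agent.Results.MP_9c739d_al.DimensionFormula
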