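import Pool.Agent.Helper68.CT.Dim

open Filter Topology Set

namespace Pool.Agent.Results.MP_9c739d_al.PositiveDimension

open Pool.Agent.Helper68.CT

/-- There are a non-elementary hyperbolic group `H` acting geometrically on a proper geodesic
hyperbolic space `X`, a non-elementary convergence action of `H` on a compact metrizable space `Z`
and an equivariant map `i : ∂X → Z` (the Cannon-Thurston map) which, for every visual metric
(any base point, any parameter `a > 1`; such metrics exist), is continuous, and for which the set
of preimages of the non-conical limit points has positive Hausdorff dimension. -/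
theorem result : ∃ (H X Z : Type) (_ : Group H) (_ : MetricSpace X) (_ : MulAction H X)
    (_ : TopologicalSpace Z) (_ : MulAction H Z) (i : Boundary X → Z),
    NotVirtuallyCyclic H ∧ ProperSpace X ∧ GeodesicSpace X ∧ GromovHyperbolic X ∧
    GeometricAction H X ∧ CompactSpace Z ∧ TopologicalSpace.MetrizableSpace Z ∧
    ConvergenceAction H Z ∧ 3 ≤ (limitSet H Z).encard ∧ Equivariant H i ∧
    ∀ (o : X) (a : ℝ), 1 < a → (∃ d, IsVisual a o d) ∧
      ∀ d, IsVisual a o d → ContinuousWith d i ∧ 0 < dimWith d (i ⁻¹' nonConical H Z) :=
  ⟨Helper68.CT.H, Helper68.CT.X, Helper68.CT.Z, inferInstance, inferInstance, inferInstance,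
    inferInstance, inferInstance, iB, H.notVirtuallyCyclic, X.proper, X.geodesic, X.hyperbolic,
    X.geometric, inferInstance, inferInstance, convergenceAction, three_le_limitSet,
    equivariant_iB, fun o a ha => ⟨exists_visual o ha, fun _ hd =>
      ⟨continuousWith_iB ha hd, dim_pos ha hd⟩⟩⟩

end Pool.Agent.Results.MP_9c739d_al.PositiveDimension
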